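import Mathlib

set_option autoImplicit false

namespace Pool.Agent.Results.MP_b5bb8b_co.Unbounded

open PowerSeries

/-- The nonbacktracking matrix of `G`, indexed by the ordered pairs `(u, v)` with `uv` an edge. -/
noncomputable def nb {V : Type} (G : SimpleGraph V) :
    Matrix {p : V × V // G.Adj p.1 p.2} {p : V × V // G.Adj p.1 p.2} ℂ :=
  open Classical in fun e f => if e.1.2 = f.1.1 ∧ e.1.1 ≠ f.1.2 then 1 else 0

/-- `M` has a Jordan block of size at least `k` (for `k ≥ 1`): there is a generalised eigenvector of height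
exactly `k`. -/
def HasJordanBlockGE {ι : Type} [Fintype ι] [DecidableEq ι] (M : Matrix ι ι ℂ) (k : ℕ) : Prop :=
  ∃ (μ : ℂ) (x : ι → ℂ), ((M - μ • (1 : Matrix ι ι ℂ)) ^ k).mulVec x = 0 ∧
    ((M - μ • (1 : Matrix ι ι ℂ)) ^ (k - 1)).mulVec x ≠ 0

/-! ### The vertex system -/

open Classical in
/-- The left side of the vertex equation. -/
noncomputable def Sys {V : Type} [Fintype V] (lam : PowerSeries ℂ) (G : SimpleGraph V) (φ : V → PowerSeries ℂ)
    (b : V) : PowerSeries ℂ :=
  (lam ^ 2 - 1) * φ b + ∑ c, if G.Adj b c then φ b - lam * φ c else 0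

open Classical in
/-- Degree as a sum. -/
noncomputable def dg {V : Type} [Fintype V] (G : SimpleGraph V) (b : V) : ℕ :=
  ∑ c, if G.Adj b c then 1 else 0

open Classical in
/-- `s` is the response function of a rooted graph whose root has degree at least `d`. -/
def Ach (lam : PowerSeries ℂ) (d : ℕ) (s : PowerSeries ℂ) : Prop :=
  ∃ (W : Type) (_ : Fintype W) (G : SimpleGraph (Option W)) (φ : Option W → PowerSeries ℂ),
    φ none = 1 ∧ (∀ w : W, Sys lam G φ (some w) = 0) ∧
    (∑ c, if G.Adj none c then lam * φ c - 1 else 0) = (lam ^ 2 - 1) * s ∧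
    (∀ w : W, 2 ≤ dg G (some w)) ∧ d ≤ dg G none

/-- Gluing two rooted graphs at the root. -/
def glueAdj {W₁ W₂ : Type} (G₁ : SimpleGraph (Option W₁)) (G₂ : SimpleGraph (Option W₂)) :
    Option (W₁ ⊕ W₂) → Option (W₁ ⊕ W₂) → Prop
  | none, none => False
  | none, some (Sum.inl w) => G₁.Adj none (some w)
  | none, some (Sum.inr w) => G₂.Adj none (some w)
  | some (Sum.inl w), none => G₁.Adj (some w) none
  | some (Sum.inr w), none => G₂.Adj (some w) none
  | some (Sum.inl w), some (Sum.inl w') => G₁.Adj (some w) (some w')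
  | some (Sum.inr w), some (Sum.inr w') => G₂.Adj (some w) (some w')
  | some (Sum.inl _), some (Sum.inr _) => False
  | some (Sum.inr _), some (Sum.inl _) => False

def glue {W₁ W₂ : Type} (G₁ : SimpleGraph (Option W₁)) (G₂ : SimpleGraph (Option W₂)) :
    SimpleGraph (Option (W₁ ⊕ W₂)) where
  Adj := glueAdj G₁ G₂
  symm := ⟨by
    rintro (_ | (a | a)) (_ | (b | b)) h
    · exact h
    · exact SimpleGraph.Adj.symm (G := G₁) h
    · exact SimpleGraph.Adj.symm (G := G₂) h
    · exact SimpleGraph.Adj.symm (G := G₁) h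
    · exact SimpleGraph.Adj.symm (G := G₁) h
    · exact h
    · exact SimpleGraph.Adj.symm (G := G₂) h
    · exact h
    · exact SimpleGraph.Adj.symm (G := G₂) h⟩
  loopless := ⟨by
    rintro (_ | (a | a)) h
    · exact h
    · exact G₁.loopless.irrefl _ h
    · exact G₂.loopless.irrefl _ h⟩

theorem Ach.add {lam s₁ s₂ : PowerSeries ℂ} {m₁ m₂ : ℕ} (h₁ : Ach lam m₁ s₁) (h₂ : Ach lam m₂ s₂) :
    Ach lam (m₁ + m₂) (s₁ + s₂) := by
  classical
  obtain ⟨W₁, _, G₁, φ₁, r₁, e₁, t₁, d₁, q₁⟩ := h₁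
  obtain ⟨W₂, _, G₂, φ₂, r₂, e₂, t₂, d₂, q₂⟩ := h₂
  have hn1 : ¬ G₁.Adj none none := G₁.loopless.irrefl _
  have hn2 : ¬ G₂.Adj none none := G₂.loopless.irrefl _
  refine ⟨W₁ ⊕ W₂, inferInstance, glue G₁ G₂,
    fun x => match x with
      | none => 1
      | some (Sum.inl w) => φ₁ (some w)
      | some (Sum.inr w) => φ₂ (some w), rfl, ?_, ?_, ?_, ?_⟩
  · rintro (w | w)
    · have h := e₁ w
      unfold Sys at h ⊢
      rw [Fintype.sum_option] at h ⊢
      rw [Fintype.sum_sum_type]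
      simp only [glue, glueAdj, if_false, Finset.sum_const_zero, add_zero]
      rw [r₁] at h
      exact h
    · have h := e₂ w
      unfold Sys at h ⊢
      rw [Fintype.sum_option] at h ⊢
      rw [Fintype.sum_sum_type]
      simp only [glue, glueAdj, if_false, Finset.sum_const_zero, zero_add]
      rw [r₂] at h
      exact h
  · rw [Fintype.sum_option] at t₁ t₂ ⊢
    rw [Fintype.sum_sum_type]
    simp only [glue, glueAdj, if_false, zero_add]
    rw [if_neg hn1, zero_add] at t₁
    rw [if_neg hn2, zero_add] at t₂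
    rw [t₁, t₂]
    ring
  · rintro (w | w)
    · have h := d₁ w
      unfold dg at h ⊢
      rw [Fintype.sum_option] at h ⊢
      rw [Fintype.sum_sum_type]
      simp only [glue, glueAdj, if_false, Finset.sum_const_zero, add_zero]
      exact h
    · have h := d₂ w
      unfold dg at h ⊢
      rw [Fintype.sum_option] at h ⊢
      rw [Fintype.sum_sum_type]
      simp only [glue, glueAdj, if_false, Finset.sum_const_zero, zero_add]
      exact h
  · unfold dg at q₁ q₂ ⊢
    rw [Fintype.sum_option] at q₁ q₂ ⊢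
    rw [Fintype.sum_sum_type]
    simp only [glue, glueAdj, if_false, zero_add]
    rw [if_neg hn1, zero_add] at q₁
    rw [if_neg hn2, zero_add] at q₂
    exact Nat.add_le_add q₁ q₂

/-- Adding a new root joined to the old root. -/
def extAdj {W : Type} (G : SimpleGraph (Option W)) : Option (Option W) → Option (Option W) → Prop
  | none, none => False
  | none, some x => x = none
  | some x, none => x = none
  | some x, some y => G.Adj x y

def ext {W : Type} (G : SimpleGraph (Option W)) : SimpleGraph (Option (Option W)) where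
  Adj := extAdj G
  symm := ⟨by
    rintro (_ | a) (_ | b) h
    · exact h
    · exact h
    · exact h
    · exact SimpleGraph.Adj.symm (G := G) h⟩
  loopless := ⟨by
    rintro (_ | a) h
    · exact h
    · exact G.loopless.irrefl _ h⟩

theorem Ach.path {lam s u : PowerSeries ℂ} (h : Ach lam 1 s) (hu : (lam ^ 2 - (lam ^ 2 - 1) * s) * u = 1) :
    Ach lam 1 (s * u) := by
  classical
  obtain ⟨W, _, G, φ, r, e, t, d, q⟩ := h
  refine ⟨Option W, inferInstance, ext G,
    fun x => match x with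
      | none => 1
      | some x => lam * u * φ x, rfl, ?_, ?_, ?_, ?_⟩
  · rintro (_ | w)
    · unfold Sys
      rw [Fintype.sum_option]
      simp only [ext, extAdj, if_true, r, mul_one]
      have h1 : (∑ c, if G.Adj none c then lam * u - lam * (lam * u * φ c) else 0) =
          -(lam * u) * ((lam ^ 2 - 1) * s) := by
        rw [← t, Finset.mul_sum]
        apply Finset.sum_congr rfl
        intro c _
        split_ifs
        · ring
        · ring
      rw [h1]
      linear_combination lam * hu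
    · have h := e w
      unfold Sys at h ⊢
      rw [Fintype.sum_option]
      simp only [ext, extAdj, reduceCtorEq, if_false, zero_add]
      have h1 : (∑ c, if G.Adj (some w) c then lam * u * φ (some w) - lam * (lam * u * φ c) else 0) =
          (lam * u) * (∑ c, if G.Adj (some w) c then φ (some w) - lam * φ c else 0) := by
        rw [Finset.mul_sum]
        apply Finset.sum_congr rfl
        intro c _
        split_ifs
        · ring
        · ring
      rw [h1]
      linear_combination lam * u * h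
  · rw [Fintype.sum_option]
    simp only [ext, extAdj, if_false, zero_add]
    rw [Fintype.sum_option]
    simp only [if_true, r, mul_one, reduceCtorEq, if_false, Finset.sum_const_zero, add_zero]
    linear_combination hu
  · rintro (_ | w)
    · unfold dg at q ⊢
      rw [Fintype.sum_option]
      simp only [ext, extAdj, if_true]
      exact Nat.add_le_add_left q 1
    · have h := d w
      unfold dg at h ⊢
      rw [Fintype.sum_option]
      simp only [ext, extAdj, reduceCtorEq, if_false, zero_add]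
      exact h
  · unfold dg
    rw [Fintype.sum_option]
    simp only [ext, extAdj, if_false, zero_add]
    rw [Fintype.sum_option]
    simp only [if_true]
    omega

/-- The 4-cycle rooted at a vertex. -/
def c4 : SimpleGraph (Option (Fin 3)) where
  Adj x y := (x = none ∧ y = some 0) ∨ (x = some 0 ∧ y = none) ∨ (x = none ∧ y = some 2) ∨
    (x = some 2 ∧ y = none) ∨ (x = some 1 ∧ y = some 0) ∨ (x = some 0 ∧ y = some 1) ∨
    (x = some 1 ∧ y = some 2) ∨ (x = some 2 ∧ y = some 1)
  symm := ⟨by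
    intro x y h
    rcases h with h | h | h | h | h | h | h | h
    · exact Or.inr (Or.inl ⟨h.2, h.1⟩)
    · exact Or.inl ⟨h.2, h.1⟩
    · exact Or.inr (Or.inr (Or.inr (Or.inl ⟨h.2, h.1⟩)))
    · exact Or.inr (Or.inr (Or.inl ⟨h.2, h.1⟩))
    · exact Or.inr (Or.inr (Or.inr (Or.inr (Or.inr (Or.inl ⟨h.2, h.1⟩)))))
    · exact Or.inr (Or.inr (Or.inr (Or.inr (Or.inl ⟨h.2, h.1⟩))))
    · exact Or.inr (Or.inr (Or.inr (Or.inr (Or.inr (Or.inr (Or.inr ⟨h.2, h.1⟩))))))
    · exact Or.inr (Or.inr (Or.inr (Or.inr (Or.inr (Or.inr (Or.inl ⟨h.2, h.1⟩))))))⟩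
  loopless := ⟨by
    intro x h
    rcases h with h | h | h | h | h | h | h | h <;>
      (obtain ⟨h1, h2⟩ := h; rw [h1] at h2; revert h2; decide)⟩

theorem Ach.base {lam v : PowerSeries ℂ} (hv : (lam ^ 4 + 1) * v = 1) : Ach lam 1 (2 * v) := by
  classical
  refine ⟨Fin 3, inferInstance, c4,
    fun x => match x with
      | none => 1
      | some i => if i = 1 then 2 * lam ^ 2 * v else lam * (lam ^ 2 + 1) * v, rfl, ?_, ?_, ?_, ?_⟩
  · intro w
    unfold Sys
    rw [Fintype.sum_option, Fin.sum_univ_three]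
    fin_cases w
    · simp [c4]
      linear_combination lam * hv
    · simp [c4]
      ring
    · simp [c4]
      linear_combination lam * hv
  · rw [Fintype.sum_option, Fin.sum_univ_three]
    simp [c4]
    linear_combination 2 * hv
  · intro w
    unfold dg
    rw [Fintype.sum_option, Fin.sum_univ_three]
    fin_cases w <;> simp [c4]
  · unfold dg
    rw [Fintype.sum_option, Fin.sum_univ_three]
    simp [c4]

/-! ### From the vertex system to Jordan blocks -/

open Classical in
theorem jordan {n : ℕ} (G : SimpleGraph (Fin n)) (μ : ℂ) (hμ : μ ≠ 0) (k : ℕ) (hk : 1 ≤ k)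
    (lam : PowerSeries ℂ) (hlam : lam = C μ + C μ * X) (q : PowerSeries ℂ) (hq : (lam ^ 2 - 1) * q = 1)
    (φ : Fin n → PowerSeries ℂ) (hφ : ∀ b, X ^ k ∣ Sys lam G φ b) (r : Fin n) (hr : constantCoeff (φ r) = 1) :
    HasJordanBlockGE (nb G) k := by
  obtain ⟨F, hF⟩ : ∃ F : Fin n × Fin n → PowerSeries ℂ, F = fun p => (lam * φ p.2 - φ p.1) * q := ⟨_, rfl⟩
  have hout : ∀ b, ∑ y, (if G.Adj b y then F (b, y) else 0) = φ b - q * Sys lam G φ b := by
    intro b
    have h1 : ∑ y, (if G.Adj b y then F (b, y) else 0) =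
        -q * ∑ c, (if G.Adj b c then φ b - lam * φ c else 0) := by
      rw [Finset.mul_sum]
      apply Finset.sum_congr rfl
      intro y _
      split_ifs
      · rw [hF]
        ring
      · ring
    rw [h1]
    unfold Sys
    linear_combination (φ b) * hq
  have key : ∀ e : {p : Fin n × Fin n // G.Adj p.1 p.2},
      ∑ f : {p : Fin n × Fin n // G.Adj p.1 p.2}, (if e.1.2 = f.1.1 ∧ e.1.1 ≠ f.1.2 then F f.1 else 0) =
      lam * F e.1 - q * Sys lam G φ e.1.2 := by
    rintro ⟨⟨a, b⟩, hab⟩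
    simp only
    have h1 : (∑ f : {p : Fin n × Fin n // G.Adj p.1 p.2}, (if b = f.1.1 ∧ a ≠ f.1.2 then F f.1 else 0)) =
        ∑ p ∈ Finset.univ.filter (fun p : Fin n × Fin n => G.Adj p.1 p.2),
          (if b = p.1 ∧ a ≠ p.2 then F p else 0) :=
      (Finset.sum_subtype (Finset.univ.filter (fun p : Fin n × Fin n => G.Adj p.1 p.2))
      (p := fun p => G.Adj p.1 p.2)
      (by intro x; rw [Finset.mem_filter]; exact ⟨fun h => h.2, fun h => ⟨Finset.mem_univ _, h⟩⟩)
      (fun p => if b = p.1 ∧ a ≠ p.2 then F p else 0)).symm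
    rw [h1, Finset.sum_filter, Fintype.sum_prod_type, Finset.sum_eq_single b]
    · have h2 : ∀ y, (if G.Adj (b, y).1 (b, y).2 then if b = (b, y).1 ∧ a ≠ (b, y).2 then F (b, y) else 0 else 0) =
          (if G.Adj b y then F (b, y) else 0) - (if y = a then F (b, a) else 0) := by
        intro y
        simp only
        by_cases hy : y = a
        · subst hy
          rw [if_pos hab.symm, if_neg (fun h => h.2 rfl), if_pos hab.symm, if_pos rfl, sub_self]
        · by_cases hby : G.Adj b y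
          · rw [if_pos hby, if_pos ⟨by trivial, Ne.symm hy⟩, if_pos hby, if_neg hy, sub_zero]
          · rw [if_neg hby, if_neg hby, if_neg hy, sub_zero]
      rw [Finset.sum_congr rfl (fun y _ => h2 y), Finset.sum_sub_distrib, hout,
        Finset.sum_ite_eq' Finset.univ a (fun _ => F (b, a)), if_pos (Finset.mem_univ a), hF]
      simp only
      linear_combination (-φ b) * hq
    · intro x _ hx
      apply Finset.sum_eq_zero
      intro y _
      split_ifs with h1 h2
      · exact absurd h2.1.symm hx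
      · rfl
      · rfl
    · intro h
      exact absurd (Finset.mem_univ b) h
  have step : ∀ a : PowerSeries ℂ,
      (nb G - μ • (1 : Matrix {p : Fin n × Fin n // G.Adj p.1 p.2} {p : Fin n × Fin n // G.Adj p.1 p.2} ℂ)).mulVec
        (fun f => coeff (k - 1) (a * F f.1)) = fun f => coeff (k - 1) (a * (C μ * X) * F f.1) := by
    intro a
    funext e
    rw [Matrix.sub_mulVec, Matrix.smul_mulVec, Matrix.one_mulVec, Pi.sub_apply, Pi.smul_apply, smul_eq_mul]
    have h1 : (nb G).mulVec (fun f => coeff (k - 1) (a * F f.1)) e =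
        coeff (k - 1) (a * ∑ f : {p : Fin n × Fin n // G.Adj p.1 p.2},
          (if e.1.2 = f.1.1 ∧ e.1.1 ≠ f.1.2 then F f.1 else 0)) := by
      rw [Finset.mul_sum, map_sum]
      unfold Matrix.mulVec dotProduct
      apply Finset.sum_congr rfl
      intro f _
      show nb G e f * coeff (k - 1) (a * F f.1) = _
      by_cases hc : e.1.2 = f.1.1 ∧ e.1.1 ≠ f.1.2
      · have hnb : nb G e f = 1 := by
          unfold nb
          exact if_pos hc
        rw [hnb, if_pos hc, one_mul]
      · have hnb : nb G e f = 0 := by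
          unfold nb
          exact if_neg hc
        rw [hnb, if_neg hc, zero_mul, mul_zero, map_zero]
    have h2 : coeff (k - 1) (a * (q * Sys lam G φ e.1.2)) = 0 := by
      have hd : X ^ k ∣ a * (q * Sys lam G φ e.1.2) :=
        Dvd.dvd.mul_left (Dvd.dvd.mul_left (hφ _) _) _
      exact X_pow_dvd_iff.mp hd (k - 1) (by omega)
    rw [h1, key, mul_sub, map_sub, h2, sub_zero, hlam, ← coeff_C_mul, ← map_sub]
    congr 1
    ring
  have iter : ∀ j : ℕ,
      ((nb G - μ • (1 : Matrix {p : Fin n × Fin n // G.Adj p.1 p.2} {p : Fin n × Fin n // G.Adj p.1 p.2} ℂ)) ^ j).mulVec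
        (fun f => coeff (k - 1) (F f.1)) = fun f => coeff (k - 1) ((C μ * X) ^ j * F f.1) := by
    intro j
    induction j with
    | zero =>
      rw [pow_zero, Matrix.one_mulVec]
      funext f
      rw [pow_zero, one_mul]
    | succ j ih =>
      rw [pow_succ', ← Matrix.mulVec_mulVec, ih, step]
      funext f
      rw [pow_succ]
  refine ⟨μ, fun f => coeff (k - 1) (F f.1), ?_, ?_⟩
  · rw [iter]
    funext f
    rw [mul_pow, mul_assoc, mul_comm, mul_assoc]
    exact X_pow_dvd_iff.mp (Dvd.intro _ rfl) (k - 1) (by omega)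
  · rw [iter]
    intro h
    have h0 : ∀ p : Fin n × Fin n, G.Adj p.1 p.2 → constantCoeff (F p) = 0 := by
      intro p hp
      have h1 := congrFun h ⟨p, hp⟩
      simp only [Pi.zero_apply] at h1
      rw [mul_pow, mul_assoc, ← map_pow, coeff_C_mul] at h1
      have h2 : coeff (k - 1) (X ^ (k - 1) * F p) = constantCoeff (F p) := by
        have := coeff_X_pow_mul (F p) (k - 1) 0
        rw [zero_add] at this
        rw [this, coeff_zero_eq_constantCoeff_apply]
      rw [h2] at h1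
      rcases mul_eq_zero.mp h1 with h3 | h3
      · exact absurd h3 (pow_ne_zero _ hμ)
      · exact h3
    have h1 := congrArg constantCoeff (hout r)
    rw [map_sum, map_sub, hr, map_mul] at h1
    have h2 : constantCoeff (Sys lam G φ r) = 0 := by
      rw [← coeff_zero_eq_constantCoeff_apply]
      exact X_pow_dvd_iff.mp (hφ r) 0 (by omega)
    rw [h2, mul_zero, sub_zero, Finset.sum_eq_zero] at h1
    · exact one_ne_zero h1.symm
    · intro y _
      split_ifs with hy
      · exact h0 (r, y) hy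
      · exact map_zero _

theorem Ach.mono {lam s : PowerSeries ℂ} {d d' : ℕ} (h : Ach lam d s) (hd : d' ≤ d) : Ach lam d' s := by
  obtain ⟨W, i, G, φ, r, e, t, d, q⟩ := h
  exact ⟨W, i, G, φ, r, e, t, d, hd.trans q⟩

open Classical in
theorem dg_eq {V : Type} [Fintype V] (G : SimpleGraph V) (b : V) : dg G b = (G.neighborSet b).ncard := by
  unfold dg
  rw [← Finset.card_filter]
  have : G.neighborSet b = ↑(Finset.univ.filter (fun c => G.Adj b c)) := by
    ext c
    rw [Finset.mem_coe, Finset.mem_filter]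
    exact ⟨fun h => ⟨Finset.mem_univ _, h⟩, fun h => h.2⟩
  rw [this, Set.ncard_coe_finset]

open Classical in
theorem closing (μ : ℂ) (hμ : μ ^ 2 = -2) (k : ℕ) (hk : 1 ≤ k) (s : PowerSeries ℂ)
    (h : Ach (C μ + C μ * X) 2 s) (hs : X ^ k ∣ s - 1) :
    ∃ (n : ℕ) (G : SimpleGraph (Fin n)), 3 ≤ n ∧ (∀ v, (G.neighborSet v).ncard ≠ 1) ∧ (∃ u v, G.Adj u v) ∧
      HasJordanBlockGE (nb G) k := by
  obtain ⟨lam, hlam⟩ : ∃ lam, lam = C μ + C μ * X := ⟨_, rfl⟩
  rw [← hlam] at h
  obtain ⟨W, _, G, φ, r, e, t, d, q⟩ := h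
  have hμ0 : μ ≠ 0 := by
    rintro rfl
    norm_num at hμ
  have hunit : IsUnit (lam ^ 2 - 1) := by
    rw [isUnit_iff_constantCoeff, hlam]
    simp [hμ]
    norm_num
  obtain ⟨qq, hqq⟩ := hunit.exists_right_inv
  obtain ⟨n, hn⟩ : ∃ n, n = Fintype.card (Option W) := ⟨_, rfl⟩
  have eqv : Option W ≃ Fin n := hn ▸ Fintype.equivFin (Option W)
  have hSys : ∀ b : Fin n, Sys lam (G.comap eqv.symm) (φ ∘ eqv.symm) b = Sys lam G φ (eqv.symm b) := by
    intro b
    unfold Sys
    congr 1
    exact Equiv.sum_comp eqv.symm (fun c => if G.Adj (eqv.symm b) c then φ (eqv.symm b) - lam * φ c else 0)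
  have hdg : ∀ b : Fin n, dg (G.comap eqv.symm) b = dg G (eqv.symm b) := by
    intro b
    unfold dg
    exact Equiv.sum_comp eqv.symm (fun c => if G.Adj (eqv.symm b) c then 1 else 0)
  have hdeg2 : ∀ x : Option W, 2 ≤ dg G x := by
    rintro (_ | w)
    · exact q
    · exact d w
  have hdiv : ∀ x : Option W, X ^ k ∣ Sys lam G φ x := by
    rintro (_ | w)
    · have h1 : Sys lam G φ none = (lam ^ 2 - 1) * (-(s - 1)) := by
        unfold Sys
        have h2 : (∑ c, if G.Adj none c then φ none - lam * φ c else 0) =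
            -(∑ c, if G.Adj none c then lam * φ c - 1 else 0) := by
          rw [← Finset.sum_neg_distrib]
          apply Finset.sum_congr rfl
          intro c _
          split_ifs
          · rw [r]; ring
          · rw [neg_zero]
        rw [h2, t, r]
        ring
      rw [h1]
      exact Dvd.dvd.mul_left (dvd_neg.mpr hs) _
    · rw [e w]
      exact dvd_zero _
  refine ⟨n, G.comap eqv.symm, ?_, ?_, ?_, ?_⟩
  · have h1 : dg G none ≤ Fintype.card W := by
      unfold dg
      rw [Fintype.sum_option, if_neg (G.loopless.irrefl _), zero_add]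
      calc (∑ w : W, if G.Adj none (some w) then 1 else 0) ≤ ∑ w : W, 1 := by
            apply Finset.sum_le_sum
            intro w _
            split_ifs
            · exact le_refl 1
            · exact Nat.zero_le 1
        _ = Fintype.card W := by rw [Finset.sum_const, smul_eq_mul, mul_one, Finset.card_univ]
    rw [hn, Fintype.card_option]
    omega
  · intro v
    rw [← dg_eq, hdg]
    have := hdeg2 (eqv.symm v)
    omega
  · have h1 : (G.neighborSet none).Nonempty := by
      apply Set.nonempty_of_ncard_ne_zero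
      rw [← dg_eq]
      omega
    obtain ⟨x, hx⟩ := h1
    refine ⟨eqv none, eqv x, ?_⟩
    show G.Adj (eqv.symm (eqv none)) (eqv.symm (eqv x))
    rw [Equiv.symm_apply_apply, Equiv.symm_apply_apply]
    exact hx
  · refine jordan (G.comap eqv.symm) μ hμ0 k hk lam hlam qq hqq (φ ∘ eqv.symm) ?_ (eqv none) ?_
    · intro b
      rw [hSys]
      exact hdiv _
    · rw [Function.comp_apply, Equiv.symm_apply_apply, r, map_one]

/-! ### Arithmetic over the dyadic rationals -/

/-- The dyadic rationals inside `ℂ`. -/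
def D : Subring ℂ where
  carrier := {z | ∃ (m : ℤ) (j : ℕ), z * 2 ^ j = m}
  mul_mem' := by
    rintro a b ⟨m, j, h⟩ ⟨m', j', h'⟩
    exact ⟨m * m', j + j', by push_cast; rw [← h, ← h']; ring⟩
  one_mem' := ⟨1, 0, by norm_num⟩
  add_mem' := by
    rintro a b ⟨m, j, h⟩ ⟨m', j', h'⟩
    exact ⟨m * 2 ^ j' + m' * 2 ^ j, j + j', by push_cast; rw [← h, ← h']; ring⟩
  zero_mem' := ⟨0, 0, by norm_num⟩
  neg_mem' := by
    rintro a ⟨m, j, h⟩
    exact ⟨-m, j, by push_cast; rw [← h]; ring⟩

noncomputable def half : D := ⟨1 / 2, 1, 1, by norm_num⟩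

theorem two_half : (2 : D) * half = 1 := by
  apply Subtype.ext
  show (2 : ℂ) * (1 / 2) = 1
  norm_num

theorem dyadic (r : D) : ∃ (m : ℤ) (j : ℕ), r = half ^ j * m := by
  obtain ⟨m, j, h⟩ := r.2
  refine ⟨m, j, ?_⟩
  have h1 : r * 2 ^ j = (m : D) := by
    apply Subtype.ext
    push_cast
    exact h
  rw [← h1]
  have h2 : (2 : D) ^ j * half ^ j = 1 := by rw [← mul_pow, two_half, one_pow]
  linear_combination (-r) * h2

theorem unit_two : IsUnit (2 : D) := IsUnit.of_mul_eq_one _ two_half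

abbrev A := PowerSeries D

noncomputable def ι : A →+* PowerSeries ℂ := PowerSeries.map D.subtype

noncomputable def y : A := -2 * (1 + X) ^ 2

noncomputable def lam (μ : ℂ) : PowerSeries ℂ := C μ + C μ * X

theorem lam_sq (μ : ℂ) (hμ : μ ^ 2 = -2) : lam μ ^ 2 = ι y := by
  unfold lam ι y
  have h1 : (C μ : PowerSeries ℂ) ^ 2 = -2 := by
    rw [← map_pow, hμ, map_neg, map_ofNat]
  simp only [map_mul, map_neg, map_ofNat, map_pow, map_add, map_one, PowerSeries.map_X]
  linear_combination (1 + X) ^ 2 * h1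

/-- Response functions with dyadic coefficients. -/
def AD (μ : ℂ) (d : ℕ) (s : A) : Prop := Ach (lam μ) d (ι s)

theorem AD.add {μ : ℂ} {s t : A} {d d' : ℕ} (h : AD μ d s) (h' : AD μ d' t) : AD μ (d + d') (s + t) := by
  unfold AD at *
  rw [map_add]
  exact Ach.add h h'

theorem AD.mono {μ : ℂ} {s : A} {d d' : ℕ} (h : AD μ d s) (hd : d' ≤ d) : AD μ d' s := Ach.mono h hd

theorem AD.add1 {μ : ℂ} {s t : A} (h : AD μ 1 s) (h' : AD μ 1 t) : AD μ 1 (s + t) :=
  (h.add h').mono (by omega)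

theorem AD.nsmul {μ : ℂ} {s : A} (h : AD μ 1 s) (n : ℕ) : AD μ 1 ((n + 1 : ℕ) * s) := by
  induction n with
  | zero =>
    have : ((0 + 1 : ℕ) : A) * s = s := by push_cast; ring
    rw [this]
    exact h
  | succ n ih =>
    have : ((n + 1 + 1 : ℕ) : A) * s = ((n + 1 : ℕ) : A) * s + s := by push_cast; ring
    rw [this]
    exact ih.add1 h

theorem AD.path {μ : ℂ} (hμ : μ ^ 2 = -2) {s u : A} (h : AD μ 1 s) (hu : (y - (y - 1) * s) * u = 1) :
    AD μ 1 (s * u) := by
  unfold AD at *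
  rw [map_mul]
  apply Ach.path h
  have h1 := congrArg ι hu
  simp only [map_mul, map_sub, map_one] at h1
  rw [lam_sq μ hμ]
  exact h1

theorem cy : constantCoeff y = (-2 : D) := by
  unfold y
  rw [map_mul, map_neg, map_ofNat, map_pow, map_add, map_one, constantCoeff_X]
  ring

theorem inv_exists (f : A) (a : D) (ha : IsUnit a) (hf : constantCoeff f = a) : ∃ w, f * w = 1 := by
  have : IsUnit f := by
    rw [isUnit_iff_constantCoeff, hf]
    exact ha
  exact this.exists_right_inv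

theorem exists_gadgets (μ : ℂ) (hμ : μ ^ 2 = -2) : ∃ wA wB wE : A,
    (y ^ 3 - y + 2) * wA = 1 ∧ (y ^ 4 - y ^ 2 - 6 * y + 8) * wB = 1 ∧
    (y ^ 5 - y ^ 3 - 6 * y ^ 2 - 8 * y + 16) * wE = 1 ∧ AD μ 1 (2 * wA) ∧ AD μ 1 (8 * wB) ∧ AD μ 1 (16 * wE) := by
  have u2 := unit_two
  obtain ⟨wA, hA⟩ := inv_exists (y ^ 3 - y + 2) (-(2 * 2)) ((u2.mul u2).neg) (by
    simp only [map_add, map_sub, map_pow, cy, map_ofNat]; ring)
  obtain ⟨wB, hB⟩ := inv_exists (y ^ 4 - y ^ 2 - 6 * y + 8) (2 ^ 5) (u2.pow 5) (by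
    simp only [map_add, map_sub, map_mul, map_pow, cy, map_ofNat]; ring)
  obtain ⟨wE, hE⟩ := inv_exists (y ^ 5 - y ^ 3 - 6 * y ^ 2 - 8 * y + 16) (-(2 ^ 4)) ((u2.pow 4).neg) (by
    simp only [map_add, map_sub, map_mul, map_pow, cy, map_ofNat]; ring)
  have AA : AD μ 1 (2 * wA) := by
    have hl2 := lam_sq μ hμ
    have hv : IsUnit ((lam μ) ^ 4 + 1) := by
      rw [isUnit_iff_constantCoeff]
      have : lam μ ^ 4 = (lam μ ^ 2) ^ 2 := by ring
      rw [this, hl2]
      have h1 : constantCoeff (ι y) = (-2 : ℂ) := by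
        rw [← hl2]
        unfold lam
        simp [hμ]
      rw [map_add, map_pow, h1, map_one]
      norm_num
    obtain ⟨v, hv⟩ := hv.exists_right_inv
    have hA' := congrArg ι hA
    simp only [map_mul, map_sub, map_add, map_pow, map_one, map_ofNat] at hA'
    have h1 := Ach.path (u := ((lam μ) ^ 4 + 1) * ι wA) (Ach.base hv) (by
      have h4 : lam μ ^ 4 = (ι y) ^ 2 := by rw [← hl2]; ring
      rw [h4, hl2]
      rw [h4] at hv
      linear_combination hA' - 2 * (ι y - 1) * (ι wA) * hv)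
    have h2 : 2 * v * (((lam μ) ^ 4 + 1) * ι wA) = ι (2 * wA) := by
      rw [map_mul, map_ofNat]
      linear_combination 2 * ι wA * hv
    rw [h2] at h1
    exact h1
  have BB : AD μ 1 (8 * wB) := by
    have h0 := AA.nsmul 3
    have h1 := AD.path hμ h0 (u := (y ^ 3 - y + 2) * wB) (by
      push_cast
      linear_combination hB - 8 * (y - 1) * wB * hA)
    have h2 : ((3 + 1 : ℕ) : A) * (2 * wA) * ((y ^ 3 - y + 2) * wB) = 8 * wB := by
      push_cast
      linear_combination 8 * wB * hA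
    rw [h2] at h1
    exact h1
  have EE : AD μ 1 (16 * wE) := by
    have h0 := BB.nsmul 1
    have h1 := AD.path hμ h0 (u := (y ^ 4 - y ^ 2 - 6 * y + 8) * wE) (by
      push_cast
      linear_combination hE - 16 * (y - 1) * wE * hB)
    have h2 : ((1 + 1 : ℕ) : A) * (8 * wB) * ((y ^ 4 - y ^ 2 - 6 * y + 8) * wE) = 16 * wE := by
      push_cast
      linear_combination 16 * wE * hB
    rw [h2] at h1
    exact h1
  exact ⟨wA, wB, wE, hA, hB, hE, AA, BB, EE⟩

theorem ex1 {wA : A} (h : (y ^ 3 - y + 2) * wA = 1) : X ^ 2 ∣ 4 * wA + 1 - 11 * X := by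
  refine ⟨wA * (366 + 1138 * X + 1640 * X ^ 2 + 1272 * X ^ 3 + 520 * X ^ 4 + 88 * X ^ 5), ?_⟩
  unfold y at h
  linear_combination (-(1 - 11 * X)) * h

theorem ex2 {wB : A} (h : (y ^ 4 - y ^ 2 - 6 * y + 8) * wB = 1) : X ^ 2 ∣ 128 * wB - 4 + 17 * X := by
  refine ⟨wB * (568 + 3892 * X + 10496 * X ^ 2 + 15388 * X ^ 3 + 13440 * X ^ 4 + 7104 * X ^ 5 + 2112 * X ^ 6 +
    272 * X ^ 7), ?_⟩
  unfold y at h
  linear_combination (4 - 17 * X) * h

theorem ex3 {wE : A} (h : (y ^ 5 - y ^ 3 - 6 * y ^ 2 - 8 * y + 16) * wE = 1) : X ^ 2 ∣ 16 * wE + 1 - 21 * X := by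
  refine ⟨wE * (5608 + 26632 * X + 72672 * X ^ 2 + 131088 * X ^ 3 + 161624 * X ^ 4 + 137112 * X ^ 5 +
    79200 * X ^ 6 + 29920 * X ^ 7 + 6688 * X ^ 8 + 672 * X ^ 9), ?_⟩
  unfold y at h
  linear_combination (-(1 - 21 * X)) * h

/-- Leading coefficients of response functions vanishing to order `k`. -/
def Cset (μ : ℂ) (k : ℕ) (c : D) : Prop := ∃ s : A, AD μ 1 s ∧ X ^ (k + 1) ∣ s - C c * X ^ k

theorem Cset.add {μ : ℂ} {k : ℕ} {c d : D} (h : Cset μ k c) (h' : Cset μ k d) : Cset μ k (c + d) := by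
  obtain ⟨s, hs, h1⟩ := h
  obtain ⟨t, ht, h2⟩ := h'
  refine ⟨s + t, hs.add1 ht, ?_⟩
  have : s + t - C (c + d) * X ^ k = (s - C c * X ^ k) + (t - C d * X ^ k) := by
    rw [map_add]
    ring
  rw [this]
  exact dvd_add h1 h2

theorem inv_const {U u : A} (h : U * u = 1) (hU : constantCoeff U = -2) : X ∣ u - C (-half) := by
  rw [X_dvd_iff, map_sub, constantCoeff_C]
  have h1 := congrArg constantCoeff h
  rw [map_mul, hU, map_one] at h1
  linear_combination (-half) * h1 - (constantCoeff u) * two_half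

theorem unitU {s : A} (hs : X ∣ s) : constantCoeff (y - (y - 1) * s) = -2 := by
  rw [X_dvd_iff] at hs
  rw [map_sub, map_mul, hs, cy]
  ring

theorem X_dvd_of {k : ℕ} (_ : 1 ≤ k) {s : A} {c : D} (h : X ^ (k + 1) ∣ s - C c * X ^ k) : X ^ k ∣ s := by
  have h1 : X ^ k ∣ s - C c * X ^ k := dvd_trans (pow_dvd_pow X (by omega)) h
  have h2 : X ^ k ∣ C c * X ^ k := Dvd.intro_left _ rfl
  have := dvd_add h1 h2
  rwa [sub_add_cancel] at this

theorem Cset.path {μ : ℂ} (hμ : μ ^ 2 = -2) {k : ℕ} (hk : 1 ≤ k) {c : D} (h : Cset μ k c) :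
    Cset μ k (-half * c) := by
  obtain ⟨s, hs, h1⟩ := h
  have hXk := X_dvd_of hk h1
  have hX : X ∣ s := dvd_trans (dvd_pow_self X (by omega)) hXk
  have hU := unitU hX
  obtain ⟨u, hu⟩ := inv_exists _ _ (unit_two.neg) hU
  refine ⟨s * u, hs.path hμ hu, ?_⟩
  have h2 := inv_const hu hU
  have : s * u - C (-half * c) * X ^ k = (s - C c * X ^ k) * u + C c * (X ^ k * (u - C (-half))) := by
    rw [map_mul]
    ring
  rw [this]
  apply dvd_add
  · exact Dvd.dvd.mul_right h1 u
  · apply Dvd.dvd.mul_left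
    rw [pow_succ]
    exact mul_dvd_mul_left _ h2

theorem Cset.neg {μ : ℂ} (hμ : μ ^ 2 = -2) {k : ℕ} (hk : 1 ≤ k) {c : D} (h : Cset μ k c) : Cset μ k (-c) := by
  have h1 := h.path hμ hk
  have h2 := h1.add h1
  have : -half * c + -half * c = -c := by linear_combination (-c) * two_half
  rwa [this] at h2

theorem Cset.zero {μ : ℂ} (hμ : μ ^ 2 = -2) {k : ℕ} (hk : 1 ≤ k) {c : D} (h : Cset μ k c) : Cset μ k 0 := by
  have := h.add (h.neg hμ hk)
  rwa [add_neg_cancel] at this

theorem Cset.half_mul {μ : ℂ} (hμ : μ ^ 2 = -2) {k : ℕ} (hk : 1 ≤ k) {c : D} (h : Cset μ k c) :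
    Cset μ k (half * c) := by
  have := (h.path hμ hk).neg hμ hk
  rwa [neg_mul, neg_neg] at this

theorem Cset.int_mul {μ : ℂ} (hμ : μ ^ 2 = -2) {k : ℕ} (hk : 1 ≤ k) {c : D} (h : Cset μ k c) (m : ℤ) :
    Cset μ k (m * c) := by
  have hnat : ∀ n : ℕ, Cset μ k ((n : D) * c) := by
    intro n
    induction n with
    | zero => rw [Nat.cast_zero, zero_mul]; exact h.zero hμ hk
    | succ n ih =>
      rw [Nat.cast_succ, add_mul, one_mul]
      exact ih.add h
  rcases Int.eq_nat_or_neg m with ⟨n, rfl | rfl⟩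
  · rw [Int.cast_natCast]
    exact hnat n
  · rw [Int.cast_neg, Int.cast_natCast, neg_mul]
    exact (hnat n).neg hμ hk

theorem Cset.mul {μ : ℂ} (hμ : μ ^ 2 = -2) {k : ℕ} (hk : 1 ≤ k) {c : D} (h : Cset μ k c) (r : D) :
    Cset μ k (r * c) := by
  obtain ⟨m, j, rfl⟩ := dyadic r
  rw [mul_assoc]
  have h1 := h.int_mul hμ hk m
  induction j with
  | zero => rw [pow_zero, one_mul]; exact h1
  | succ j ih =>
    rw [pow_succ', mul_assoc]
    exact ih.half_mul hμ hk

theorem Cset.one_one {μ : ℂ} (hμ : μ ^ 2 = -2) : Cset μ 1 1 := by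
  obtain ⟨wA, wB, wE, hA, hB, hE, AA, BB, EE⟩ := exists_gadgets μ hμ
  have e1 := ex1 hA
  have e2 := ex2 hB
  have e3 := ex3 hE
  have h3 : C half * 2 = (1 : A) := by
    have := congrArg (C (R := D)) two_half
    rw [map_mul, map_one] at this
    rw [← this, mul_comm]
    rfl
  have ha : Cset μ 1 (half ^ 3 * 27) := by
    refine ⟨2 * wA + ((1 + 1 : ℕ) : A) * (8 * wB), AA.add1 (BB.nsmul 1), ?_⟩
    obtain ⟨q1, hq1⟩ := e1
    obtain ⟨q2, hq2⟩ := e2
    refine ⟨(C half) ^ 3 * (4 * q1 + q2), ?_⟩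
    have h27 : C (half ^ 3 * 27) = (C half) ^ 3 * (27 : A) := by
      rw [map_mul, map_pow]; rfl
    rw [h27]
    push_cast
    have h8 : (C half : A) ^ 3 * 8 = 1 := by
      have : (C half : A) ^ 3 * 8 = (C half * 2) ^ 3 := by ring
      rw [this, h3, one_pow]
    linear_combination (C half) ^ 3 * (4 * hq1 + hq2) - (2 * wA + 16 * wB) * h8
  have hb : Cset μ 1 (half ^ 2 * 67) := by
    refine ⟨((3 + 1 : ℕ) : A) * (8 * wB) + 16 * wE, (BB.nsmul 3).add1 EE, ?_⟩
    obtain ⟨q2, hq2⟩ := e2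
    obtain ⟨q3, hq3⟩ := e3
    refine ⟨(C half) ^ 2 * (q2 + 4 * q3), ?_⟩
    have h27 : C (half ^ 2 * 67) = (C half) ^ 2 * (67 : A) := by
      rw [map_mul, map_pow]; rfl
    rw [h27]
    push_cast
    have h8 : (C half : A) ^ 2 * 4 = 1 := by
      have : (C half : A) ^ 2 * 4 = (C half * 2) ^ 2 := by ring
      rw [this, h3, one_pow]
    linear_combination (C half) ^ 2 * (hq2 + 4 * hq3) - (32 * wB + 16 * wE) * h8
  have h1 := (ha.mul hμ le_rfl 40).add (hb.mul hμ le_rfl (-8))
  have : (40 : D) * (half ^ 3 * 27) + -8 * (half ^ 2 * 67) = 1 := by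
    have h2 := two_half
    linear_combination (135 * (4 * half ^ 2 + 2 * half + 1) - 134 * (2 * half + 1)) * h2
  rwa [this] at h1

/-- The combination `s + 2 * (s / (y - (y - 1) s))`. -/
theorem AD.comb {μ : ℂ} (hμ : μ ^ 2 = -2) {s u : A} (h : AD μ 1 s) (hu : (y - (y - 1) * s) * u = 1) :
    AD μ 1 (s + 2 * (s * u)) := by
  have h1 := (h.path hμ hu).nsmul 1
  have h2 : ((1 + 1 : ℕ) : A) = 2 := by norm_num
  rw [h2] at h1
  exact h.add1 h1

theorem Cset.one_two {μ : ℂ} (hμ : μ ^ 2 = -2) : Cset μ 2 1 := by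
  obtain ⟨s, hs, h1⟩ := Cset.one_one hμ
  have hX := X_dvd_of le_rfl h1
  rw [pow_one] at hX
  obtain ⟨u, hu⟩ := inv_exists _ _ (unit_two.neg) (unitU hX)
  have hc := hs.comb hμ hu
  obtain ⟨r, hr⟩ := h1
  have hsr : s = X + X ^ 2 * r := by
    rw [map_one, one_mul, pow_one, sub_eq_iff_eq_add] at hr
    rw [hr]
    ring
  have key : X ^ 3 ∣ 2 * (s + 2 * (s * u)) - X ^ 2 := by
    refine ⟨u * (5 + 4 * r + 2 * X + 9 * X * r + 6 * X * r ^ 2 - 2 * X ^ 2 + 4 * X ^ 2 * r + 8 * X ^ 2 * r ^ 2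
      - 2 * X ^ 3 * r + 4 * X ^ 3 * r ^ 2), ?_⟩
    have : 2 * (s + 2 * (s * u)) - X ^ 2 =
        u * (2 * s * (y + 2 - (y - 1) * s) - X ^ 2 * (y - (y - 1) * s)) := by
      linear_combination (-(2 * s - X ^ 2)) * hu
    rw [this, hsr]
    unfold y
    ring
  have h2 : Cset μ 2 half := by
    refine ⟨_, hc, ?_⟩
    have h3 : C half * 2 = (1 : A) := by
      have := congrArg (C (R := D)) two_half
      rw [map_mul, map_one] at this
      rw [← this, mul_comm]
      rfl
    have : s + 2 * (s * u) - C half * X ^ 2 = C half * (2 * (s + 2 * (s * u)) - X ^ 2) := by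
      linear_combination (-(s + 2 * (s * u))) * h3
    rw [this]
    exact Dvd.dvd.mul_left key _
  have h4 := h2.mul hμ (by norm_num) 2
  rwa [two_half] at h4

theorem Cset.one_step {μ : ℂ} (hμ : μ ^ 2 = -2) {m : ℕ} (h : Cset μ (m + 2) 1) : Cset μ (m + 3) 1 := by
  obtain ⟨s, hs, h1⟩ := h
  have hXk := X_dvd_of (by omega) h1
  have hX : X ∣ s := dvd_trans (dvd_pow_self X (by omega)) hXk
  obtain ⟨u, hu⟩ := inv_exists _ _ (unit_two.neg) (unitU hX)
  have hc := hs.comb hμ hu
  obtain ⟨r, hr⟩ := h1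
  have hsr : s = X ^ (m + 2) * (1 + X * r) := by
    rw [map_one, one_mul, sub_eq_iff_eq_add] at hr
    rw [hr]
    ring
  have h2 : Cset μ (m + 3) 2 := by
    refine ⟨_, hc, ?_⟩
    have h27 : (C 2 : A) = 2 := rfl
    rw [h27]
    have : s + 2 * (s * u) - 2 * X ^ (m + 3) =
        u * (s * (y + 2) - (y - 1) * s ^ 2 - 2 * X ^ (m + 3) * (y - (y - 1) * s)) := by
      linear_combination (-(s - 2 * X ^ (m + 3))) * hu
    rw [this]
    apply Dvd.dvd.mul_left
    refine ⟨(-2 - 4 * r - 2 * X * r) - (y - 1) * X ^ m * (1 + X * r) ^ 2 +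
      (8 + 4 * X + 2 * (y - 1) * X ^ (m + 1) * (1 + X * r)), ?_⟩
    rw [hsr]
    unfold y
    ring
  have h4 := h2.mul hμ (by omega) half
  rwa [mul_comm, two_half] at h4

theorem Cset.one_all {μ : ℂ} (hμ : μ ^ 2 = -2) (k : ℕ) (hk : 1 ≤ k) : Cset μ k 1 := by
  have h : ∀ m, Cset μ (m + 2) 1 := by
    intro m
    induction m with
    | zero => exact Cset.one_two hμ
    | succ m ih => exact ih.one_step hμ
  rcases Nat.lt_or_ge k 2 with h1 | h1
  · have : k = 1 := by omega
    rw [this]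
    exact Cset.one_one hμ
  · obtain ⟨m, rfl⟩ := Nat.exists_eq_add_of_le' h1
    exact h m

theorem exists_close (μ : ℂ) (hμ : μ ^ 2 = -2) (k : ℕ) : ∃ s : A, AD μ 2 s ∧ X ^ (k + 1) ∣ s - 1 := by
  induction k with
  | zero =>
    obtain ⟨wA, wB, wE, hA, hB, hE, AA, BB, EE⟩ := exists_gadgets μ hμ
    have e2 := ex2 hB
    refine ⟨8 * wB + ((2 + 1 : ℕ) : A) * (8 * wB), BB.add (BB.nsmul 2), ?_⟩
    rw [zero_add, pow_one]
    have h3 : C half * 2 = (1 : A) := by
      have := congrArg (C (R := D)) two_half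
      rw [map_mul, map_one] at this
      rw [← this, mul_comm]
      rfl
    obtain ⟨q, hq⟩ := e2
    refine ⟨(C half) ^ 2 * (X * q - 17), ?_⟩
    push_cast
    have h8 : (C half : A) ^ 2 * 4 = 1 := by
      have : (C half : A) ^ 2 * 4 = (C half * 2) ^ 2 := by ring
      rw [this, h3, one_pow]
    linear_combination (C half) ^ 2 * hq - (32 * wB - 1) * h8
  | succ k ih =>
    obtain ⟨s, hs, hd⟩ := ih
    obtain ⟨r, hr⟩ := hd
    obtain ⟨t, ht, hdt⟩ := (Cset.one_all hμ (k + 1) (by omega)).mul hμ (by omega) (-(constantCoeff r))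
    refine ⟨s + t, (hs.add ht).mono (by omega), ?_⟩
    have h1 : X ∣ r - C (constantCoeff r) := by
      rw [X_dvd_iff, map_sub, constantCoeff_C, sub_self]
    obtain ⟨q, hq⟩ := h1
    have : s + t - 1 = (t - C (-(constantCoeff r) * 1) * X ^ (k + 1)) + X ^ (k + 1 + 1) * q := by
      rw [mul_one, map_neg, pow_succ (X : A) (k + 1)]
      linear_combination hr + X ^ (k + 1) * hq
    rw [this]
    exact dvd_add hdt (Dvd.intro _ rfl)

open Classical in
theorem result : ∀ K : ℕ, ∃ (n : ℕ) (G : SimpleGraph (Fin n)), 3 ≤ n ∧ (∀ v, (G.neighborSet v).ncard ≠ 1) ∧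
    (∃ u v, G.Adj u v) ∧ HasJordanBlockGE (nb G) (K + 1) := by
  intro K
  obtain ⟨μ, hμ⟩ : ∃ μ : ℂ, μ ^ 2 = -2 := by
    obtain ⟨z, hz⟩ := IsAlgClosed.exists_pow_nat_eq (-2 : ℂ) (n := 2) (by norm_num)
    exact ⟨z, hz⟩
  obtain ⟨s, hs, hd⟩ := exists_close μ hμ K
  refine closing μ hμ (K + 1) (by omega) (ι s) hs ?_
  obtain ⟨q, hq⟩ := hd
  refine ⟨ι q, ?_⟩
  have h1 := congrArg ι hq
  rw [map_sub, map_one, map_mul, map_pow] at h1
  have h2 : ι X = X := by
    unfold ι
    rw [PowerSeries.map_X]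
  rw [h2] at h1
  exact h1

end Pool.Agent.Results.MP_b5bb8b_co.Unbounded
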